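import Pool.Agent.P.MP_8219a1_an.G.Ext

set_option autoImplicit false

open scoped ComplexOrder
open Filter Topology

noncomputable section

namespace Pool.Agent.P.MP_8219a1_an.H93

open G

/-- A decreasing net of projections excises the state it determines. -/
theorem excise {B I : Type*} [NonUnitalCStarAlgebra B] {H : Finset I → B}
    (hp : ∀ G, IsStarProjection (H G)) (hm : ∀ G G', G ⊆ G' → H G * H G' = H G') {k : B}
    (hk : IsStarProjection k)
    (hd : ∀ ρ : B →L[ℂ] ℂ, ‖ρ‖ ≤ 1 → (∀ b, 0 ≤ ρ (star b * b)) → (∀ G, ρ (H G) = 1) → ρ k = 1)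
    {ε : ℝ} (hε : 0 < ε) (G₀ : Finset I) : ∃ G, G₀ ⊆ G ∧ ‖H G - k * H G‖ ≤ ε := by
  classical
  have hc : IsCompact (Q B ∩ {ρ | (ρ k).re ≤ 1 - ε ^ 2}) := (isCompact_Q B).inter_right
    (isClosed_le (Complex.continuous_re.comp (WeakDual.eval_continuous _)) continuous_const)
  obtain ⟨T, hT⟩ := hc.elim_finite_subfamily_closed (fun G => {ρ | ρ (H G) = 1})
    (fun G => isClosed_eq (WeakDual.eval_continuous _) continuous_const) (by
      rw [Set.eq_empty_iff_forall_notMem]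
      rintro ρ ⟨⟨r1, r2⟩, r3⟩
      have := hd (WeakDual.toStrongDual ρ) r1.1 r1.2 fun G => Set.mem_iInter.1 r3 G
      change ρ k = 1 at this
      simp only [Set.mem_ofPred_eq, this, Complex.one_re] at r2
      nlinarith)
  refine ⟨G₀ ∪ T.sup id, Finset.subset_union_left, le_of_not_gt fun hlt => ?_⟩
  set h := H (G₀ ∪ T.sup id) with hh
  have p := hp (G₀ ∪ T.sup id)
  rw [← hh] at p
  set y := h - k * h with hy
  have e1 : star y * y = h - h * k * h := by
    simp only [hy, star_sub, star_mul, p.isSelfAdjoint.star_eq, hk.isSelfAdjoint.star_eq, sub_mul,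
      mul_sub, p.isIdempotentElem.eq, mul_assoc, ← mul_assoc k k, hk.isIdempotentElem.eq]
    abel
  have e2 : star h * (star y * y) = star y * y := by
    rw [e1, p.isSelfAdjoint.star_eq, mul_sub, ← mul_assoc, ← mul_assoc, p.isIdempotentElem.eq]
  obtain ⟨ρ, r1, r2⟩ := exists_norm_state (star_mul_self_nonneg (inr B y))
  have n1 : ‖star (inr B y) * inr B y‖ = ‖y‖ * ‖y‖ := by
    rw [CStarRing.norm_star_mul_self]
    exact congrArg₂ _ (Unitization.norm_inr y) (Unitization.norm_inr y)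
  have q := p.map (inr B)
  have y0 : 0 < ‖y‖ * ‖y‖ := mul_pos (hε.trans hlt) (hε.trans hlt)
  have r3 : ρ (inr B h) = 1 := by
    refine eq_one_of_re ((r1.le _).trans q.norm_le) ?_
    have c := pos_cs r1.pos (inr B h) (star (inr B y) * inr B y)
    have c2 := (Complex.re_le_norm _).trans
      (r1.le (star (star (inr B y) * inr B y) * (star (inr B y) * inr B y)))
    rw [CStarRing.norm_star_mul_self, n1] at c2
    rw [← map_star, ← map_star, ← map_mul, ← map_mul, e2, map_mul, map_star, r2, n1, map_star,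
      q.isSelfAdjoint.star_eq, q.isIdempotentElem.eq, Complex.norm_real, Real.norm_of_nonneg y0.le]
      at c
    by_contra c3
    have c4 := (r1.pos (star (inr B y) * inr B y)).1
    simp only [Complex.zero_re] at c4
    have c5 := (r1.pos (inr B h)).1
    rw [q.isSelfAdjoint.star_eq, q.isIdempotentElem.eq, Complex.zero_re] at c5
    nlinarith [mul_pos y0 y0, mul_le_mul_of_nonneg_left c2 c5]
  refine Set.eq_empty_iff_forall_notMem.1 hT (StrongDual.toWeakDual (res (inr B) ρ))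
    ⟨⟨⟨(res_norm _ _).trans r1.norm_le, res_pos _ r1.pos⟩, ?_⟩, Set.mem_iInter₂.2 fun G hG => ?_⟩
  · change (ρ (inr B k)).re ≤ _
    rw [← map_star, ← map_mul, e1, map_sub, map_mul, map_mul, map_sub, r1.mul_right q.norm_le r3,
      r1.mul_left q.norm_le r3, r3, ← map_mul, ← map_mul, ← map_sub, ← e1, map_mul, map_star, n1]
      at r2
    have := congrArg Complex.re r2
    simp only [Complex.sub_re, Complex.one_re, Complex.ofReal_re] at this
    nlinarith
  · change ρ (inr B (H G)) = 1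
    rw [← r1.mul_right q.norm_le r3, ← map_mul, hh, hm G _
      ((Finset.le_sup (f := id) hG).trans Finset.subset_union_right), ← hh, r3]

/-- The delta-system lemma. -/
theorem delta {Ω α : Type*} {S : Set Ω} (hS : ¬S.Countable) (G : Ω → Finset α) :
    ∃ (R : Finset α) (S' : Set Ω), S' ⊆ S ∧ ¬S'.Countable ∧ (∀ i ∈ S', R ⊆ G i) ∧
      ∀ l ∉ R, {i ∈ S' | l ∈ G i}.Countable := by
  classical
  obtain ⟨n, hn⟩ : ∃ n, ¬{i ∈ S | (G i).card = n ∧ ∅ ⊆ G i}.Countable := by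
    by_contra h
    push Not at h
    exact hS ((Set.countable_iUnion h).mono fun i hi =>
      Set.mem_iUnion.2 ⟨(G i).card, by simpa using hi⟩)
  obtain ⟨R, h1, h2⟩ := (measure fun R : Finset α => n - R.card).wf.has_min
    {R | ¬{i ∈ S | (G i).card = n ∧ R ⊆ G i}.Countable} ⟨∅, hn⟩
  refine ⟨R, _, fun i hi => hi.1, h1, fun i hi => hi.2.2, fun l hl => by_contra fun h => ?_⟩
  have h3 : ¬{i ∈ S | (G i).card = n ∧ insert l R ⊆ G i}.Countable := fun c =>
    h (c.mono fun i hi => by exact ⟨hi.1.1, hi.1.2.1, Finset.insert_subset hi.2 hi.1.2.2⟩)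
  obtain ⟨i, hi⟩ : {i ∈ S | (G i).card = n ∧ insert l R ⊆ G i}.Nonempty :=
    Set.nonempty_iff_ne_empty.2 fun e => h3 (e ▸ Set.countable_empty)
  have h4 := Finset.card_le_card hi.2.2
  refine h2 _ h3 (show n - (insert l R).card < n - R.card from ?_)
  rw [hi.2.1, Finset.card_insert_of_notMem hl] at h4
  rw [Finset.card_insert_of_notMem hl]
  omega

theorem pick {Ω : Type*} [LinearOrder Ω] (hΩ : ∀ γ : Ω, (Set.Iic γ).Countable) {S : Set Ω}
    (hS : ¬S.Countable) {G F : Ω → Finset Ω} {R R' : Finset Ω}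
    (h1 : ∀ l ∉ R, {i ∈ S | l ∈ G i}.Countable) (h2 : ∀ l ∉ R', {i ∈ S | l ∈ F i}.Countable)
    (C : Finset Ω) : ∃ i ∈ S, i ∉ R' ∧ (∀ c ∈ C, c < i) ∧ (∀ b ∈ G i, b ∉ R → ∀ c ∈ C, c < b) ∧
      ∀ b ∈ F i, b ∉ R' → ∀ c ∈ C, c < b := by
  have hD : (⋃ c ∈ (C : Set Ω), Set.Iic c).Countable := C.countable_toSet.biUnion fun c _ => hΩ c
  have b1 := (hD.mono (Set.sdiff_subset (t := R))).biUnion fun l hl => h1 l hl.2
  have b2 := (hD.mono (Set.sdiff_subset (t := R'))).biUnion fun l hl => h2 l hl.2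
  obtain ⟨i, hi, hn⟩ := Set.not_subset.1 fun h =>
    hS ((((R'.countable_toSet.union hD).union b1).union b2).mono h)
  simp only [Set.mem_union, not_or] at hn
  obtain ⟨⟨⟨n1, n2⟩, n3⟩, n4⟩ := hn
  refine ⟨i, hi, n1, fun c hc => lt_of_not_ge fun h => n2 (Set.mem_biUnion hc h),
    fun b hb hr c hc => lt_of_not_ge fun h => n3 ?_, fun b hb hr c hc => lt_of_not_ge fun h => n4 ?_⟩
  · exact Set.mem_biUnion (x := b) ⟨Set.mem_biUnion hc h, hr⟩ ⟨hi, hb⟩
  · exact Set.mem_biUnion (x := b) ⟨Set.mem_biUnion hc h, hr⟩ ⟨hi, hb⟩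

/-- The orientation of a pair of elements with respect to a functional. -/
def ori {B : Type*} [NonUnitalCStarAlgebra B] (φ : B →L[ℂ] ℂ) (a b : B) : ℝ :=
  (Complex.I * φ (star a * b - star b * a)).re

theorem ori_le {B : Type*} [NonUnitalCStarAlgebra B] {φ : B →L[ℂ] ℂ} (hn : ‖φ‖ ≤ 1)
    {a b c d : B} {ε : ℝ} (hε : ε ≤ 1) (hc : ‖c‖ ≤ 1) (hd : ‖d‖ ≤ 1) (h1 : ‖a - c‖ ≤ ε)
    (h2 : ‖b - d‖ ≤ ε) : ori φ a b ≤ ori φ c d + 6 * ε := by
  have key : ∀ {a b c d : B}, ‖c‖ ≤ 1 → ‖d‖ ≤ 1 → ‖a - c‖ ≤ ε → ‖b - d‖ ≤ ε →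
      ‖star a * b - star c * d‖ ≤ 3 * ε := fun {a b c d} hc hd h1 h2 => by
    have e : star a * b - star c * d =
        star (a - c) * (b - d) + star (a - c) * d + star c * (b - d) := by
      simp only [star_sub, sub_mul, mul_sub]
      abel
    have h0 := (norm_nonneg _).trans h1
    have m1 := norm_mul_le (star (a - c)) (b - d)
    have m2 := norm_mul_le (star (a - c)) d
    have m3 := norm_mul_le (star c) (b - d)
    rw [norm_star] at m1 m2 m3
    have m4 := mul_le_mul h1 (h2.trans hε) (norm_nonneg _) h0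
    have m5 := mul_le_mul h1 hd (norm_nonneg _) h0
    have m6 := mul_le_mul hc h2 (norm_nonneg _) zero_le_one
    rw [e]
    linarith [norm_add₃_le (a := star (a - c) * (b - d)) (b := star (a - c) * d)
      (c := star c * (b - d))]
  have e : ori φ a b - ori φ c d =
      (Complex.I * φ ((star a * b - star c * d) - (star b * a - star d * c))).re := by
    simp only [ori, map_sub, ← Complex.sub_re]
    congr 1
    ring
  have h3 := (Complex.re_le_norm _).trans_eq (norm_mul Complex.I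
    (φ ((star a * b - star c * d) - (star b * a - star d * c))))
  rw [Complex.norm_I, one_mul] at h3
  have h4 := (φ.le_opNorm ((star a * b - star c * d) - (star b * a - star d * c))).trans
    (mul_le_of_le_one_left (norm_nonneg _) hn)
  linarith [norm_sub_le (star a * b - star c * d) (star b * a - star d * c), key hc hd h1 h2,
    key hd hc h2 h1]

/-- Two nets of projections of opposite chirality cannot determine the same state. -/
theorem core {B Ω : Type*} [NonUnitalCStarAlgebra B] [LinearOrder Ω] [Uncountable Ω]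
    (hΩ : ∀ γ : Ω, (Set.Iic γ).Countable) {φ : B →L[ℂ] ℂ} (hn : ‖φ‖ ≤ 1) {H K : Finset Ω → B}
    (pH : ∀ G, IsStarProjection (H G)) (pK : ∀ G, IsStarProjection (K G))
    (mH : ∀ G G', G ⊆ G' → H G * H G' = H G') (mK : ∀ G G', G ⊆ G' → K G * K G' = K G')
    (dH : ∀ ρ : B →L[ℂ] ℂ, ‖ρ‖ ≤ 1 → (∀ b, 0 ≤ ρ (star b * b)) → (∀ G, ρ (H G) = 1) →
      ∀ F, ρ (K F) = 1)
    (dK : ∀ ρ : B →L[ℂ] ℂ, ‖ρ‖ ≤ 1 → (∀ b, 0 ≤ ρ (star b * b)) → (∀ G, ρ (K G) = 1) →
      ∀ F, ρ (H F) = 1)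
    (pos : ∀ G₁ G₂ G₃ : Finset Ω, (∀ a ∈ G₁, ∀ b ∈ G₂, b ∉ G₁ → a < b) →
      (∀ e ∈ G₃, ∀ b ∈ G₂, e ∉ G₁ ∨ e ∉ G₂ → b < e) →
      ∀ v, 0 ≤ ori φ (H G₁ * (v - H G₃ * v)) (H G₂ * (v - H G₃ * v)))
    (neg : ∀ x y z, x < y → y < z → ∃ v, ‖v‖ ≤ 1 ∧ K {z} * v = 0 ∧
      (∀ F, x ∈ F → y ∉ F → z ∉ F → K F * v = K {x} * v) ∧
      (∀ F, x ∉ F → y ∈ F → z ∉ F → K F * v = K {y} * v) ∧
      ori φ (K {x} * v) (K {y} * v) = -1 / 2) : False := by
  classical
  have hε : (0 : ℝ) < 1 / 100 := by norm_num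
  choose G _ hG using fun i => excise pH mH (pK {i}) (fun ρ a b c => dH ρ a b c _) hε ∅
  choose F hF0 hF using fun i => excise pK mK (pH (G i)) (fun ρ a b c => dK ρ a b c _) hε {i}
  obtain ⟨R, S₁, -, s1, r1, c1⟩ := delta (Set.not_countable_univ (α := Ω)) G
  obtain ⟨R', S, s2, s3, -, c2⟩ := delta s1 F
  have c3 : ∀ l ∉ R, {i ∈ S | l ∈ G i}.Countable := fun l hl =>
    (c1 l hl).mono fun i hi => by exact ⟨s2 hi.1, hi.2⟩
  obtain ⟨x, x1, x2, -, -, -⟩ := pick hΩ s3 c3 c2 ∅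
  obtain ⟨y, y1, -, y3, y4, y5⟩ := pick hΩ s3 c3 c2 (G x ∪ F x)
  obtain ⟨z, -, -, z3, z4, -⟩ := pick hΩ s3 c3 c2 (G y ∪ F y ∪ F x)
  have fx : ∀ i, i ∈ F i := fun i => hF0 i (Finset.mem_singleton_self i)
  obtain ⟨v, v1, v2, v3, v4, v5⟩ := neg x y z (y3 x (by simp [fx])) (z3 y (by simp [fx]))
  have E1 : ∀ i u, K {i} * u = 0 → ‖H (G i) * u‖ ≤ 1 / 100 * ‖u‖ := fun i u hu => by
    have : H (G i) * u = star (H (G i) - K {i} * H (G i)) * u := by
      rw [star_sub, star_mul, (pH _).isSelfAdjoint.star_eq, (pK _).isSelfAdjoint.star_eq, sub_mul,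
        mul_assoc, hu, mul_zero, sub_zero]
    rw [this]
    exact (norm_mul_le _ _).trans (mul_le_mul_of_nonneg_right (by rw [norm_star]; exact hG i)
      (norm_nonneg _))
  have n1 : ∀ i, ‖K {i} * v‖ ≤ 1 := fun i =>
    (norm_mul_le _ _).trans (mul_le_one₀ (pK _).norm_le (norm_nonneg _) v1)
  have E2 : ∀ i, K (F i) * v = K {i} * v →
      ‖H (G i) * (v - H (G z) * v) - K {i} * v‖ ≤ 4 / 100 := fun i hi => by
    have e : H (G i) * (v - H (G z) * v) - K {i} * v = H (G i) * (v - K {i} * v) -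
        (K (F i) - H (G i) * K (F i)) * v - H (G i) * (H (G z) * v) := by
      simp only [mul_sub, sub_mul, mul_assoc, hi]
      abel
    have a1 := E1 i (v - K {i} * v) (by
      rw [mul_sub, ← mul_assoc, (pK _).isIdempotentElem.eq, sub_self])
    have a2 := (norm_mul_le _ v).trans (mul_le_mul (hF i) v1 (norm_nonneg _) hε.le)
    have a3 := (norm_mul_le (H (G i)) (H (G z) * v)).trans
      (mul_le_of_le_one_left (norm_nonneg _) (pH _).norm_le)
    have a4 := E1 z v v2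
    have a5 := norm_sub_le v (K {i} * v)
    rw [e]
    refine ((norm_sub_le _ _).trans (add_le_add_left (norm_sub_le _ _) _)).trans ?_
    linarith [n1 i]
  have t1 := ori_le hn (by norm_num) (n1 x) (n1 y)
    (E2 x (v3 _ (fx x) (fun h => (y3 y (by simp [h])).false) fun h => (z3 z (by simp [h])).false))
    (E2 y (v4 _ (fun h => (y5 x h x2 x (by simp [fx])).false) (fx y)
      fun h => (z3 z (by simp [h])).false))
  have t2 := pos (G x) (G y) (G z)
    (fun a ha b hb hb' => y4 b hb (fun h => hb' (r1 x (s2 x1) h)) a (by simp [ha]))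
    (fun e he b hb h => z4 e he (fun c => h.elim (· (r1 x (s2 x1) c)) (· (r1 y (s2 y1) c))) b
      (by simp [hb])) v
  linarith

end Pool.Agent.P.MP_8219a1_an.H93
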