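import Pool.Agent.P.MP_8219a1_an.Defs

set_option autoImplicit false

namespace Pool.Agent.P.MP_8219a1_an

/-- `φ` and `ψ` are exchanged by a star-anti-automorphism of `A`, that is, by a star-isomorphism
of `A` onto its opposite algebra. -/
def IsAntiExchanged {A : Type*} [NonUnitalCStarAlgebra A] (φ ψ : A →L[ℂ] ℂ) : Prop :=
  ∃ β : A ≃⋆ₐ[ℂ] Aᵐᵒᵖ, ∀ a : A, φ a = ψ (β a).unop ∧ ψ a = φ (β a).unop

end Pool.Agent.P.MP_8219a1_an
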