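import Pool.Agent.P.MP_8219a1_an.H93.Pauli

set_option autoImplicit false

open scoped ComplexOrder
open Filter Topology Complex Cardinal

noncomputable section

namespace Pool.Agent.P.MP_8219a1_an.H93

open G

theorem exists_omega : ∃ (Ω : Type) (_ : LinearOrder Ω) (_ : Uncountable Ω),
    ∀ γ : Ω, (Set.Iic γ).Countable := by
  refine ⟨(ℵ₁ : Cardinal.{0}).ord.ToType, inferInstance, ?_, fun γ => ?_⟩
  · rw [← aleph0_lt_mk_iff, mk_ord_toType]
    exact aleph0_lt_aleph_one
  · rw [← Set.Iio_insert]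
    exact ((countable_iff_lt_aleph_one _).2 (mk_Iio_toType_ord_lt γ)).insert γ

variable {Ω : Type} [LinearOrder Ω]

/-- The local type of the symmetry of a finite set at a triple. -/
def kd (n : Bool × Finset Ω) (r : Bool × Ω × Ω × Ω) : Fin 5 :=
  if n.1 = r.1 ∧ r.2.1 < r.2.2.1 ∧ r.2.2.1 < r.2.2.2 then
    ty (decide (r.2.1 ∈ n.2)) (decide (r.2.2.1 ∈ n.2)) (decide (r.2.2.2 ∈ n.2)) else 1

theorem kd_pos (sd : Bool) (G : Finset Ω) {x y z : Ω} (h1 : x < y) (h2 : y < z) :
    kd (sd, G) (sd, x, y, z) = ty (decide (x ∈ G)) (decide (y ∈ G)) (decide (z ∈ G)) :=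
  if_pos ⟨rfl, h1, h2⟩

theorem kd_cases (sd : Bool) (r : Bool × Ω × Ω × Ω) : (∀ G, kd (sd, G) r = 1) ∨
    ∃ x y z, x < y ∧ y < z ∧ r = (sd, x, y, z) := by
  by_cases h : sd = r.1 ∧ r.2.1 < r.2.2.1 ∧ r.2.2.1 < r.2.2.2
  · exact .inr ⟨_, _, _, h.2.1, h.2.2, h.1 ▸ rfl⟩
  · exact .inl fun G => if_neg h

universe u

theorem exists_anti_pair :
    ∃ (A : Type) (_ : CStarAlgebra A), IsSimpleCStar A ∧
      ∃ φ ψ : A →L[ℂ] ℂ, IsPureState φ ∧ IsPureState ψ ∧
        (∃ β : A ≃⋆ₐ[ℂ] Aᵐᵒᵖ, ∀ a, φ a = ψ (β a).unop ∧ ψ a = φ (β a).unop) ∧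
        ∀ (B : Type u) [NonUnitalCStarAlgebra B] (ι κ : A →⋆ₙₐ[ℂ] B) (χ : B →L[ℂ] ℂ),
          IsUniqueStateExtension ι φ χ → IsUniqueStateExtension κ ψ χ → False := by
  classical
  obtain ⟨Ω, _, _, hΩ⟩ := exists_omega
  obtain ⟨A, _, D, ω, w1, w2, w3, w4, β, b1, b2⟩ := exists_ydata
    (L := (Bool × Ω × Ω × Ω) × Bool) (N := Bool × Finset Ω)
    (fun n i => (i.1, xor (fl (kd n i.1)) i.2)) (fun n i => ph i.1.1 (kd n i.1) i.2)
    (fun n i => by simp) (fun n i => ph_norm _ _ _) (fun n i => ph_flip _ _ _)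
    (fun i => ((!i.1.1, i.1.2), i.2)) (fun i => by simp) (fun n => (!n.1, n.2))
    (fun n i => by simp [kd]) (fun n i => by simpa [kd] using ph_not _ _ _)
  let _ := CStarAlgebra.spectralOrder A
  have _ := CStarAlgebra.spectralOrderedRing A
  have ac : ∀ n r, Ac (fun b => D.s (r, b)) r.1 (kd n r) (D.u n) := fun n r b => w4 n (r, b)
  have lim := w1.lim (l := cofinite) (t := fun a : Ω => ((true, a, a, a), false))
    (Function.Injective.tendsto_cofinite fun _ _ e => by simpa using e) fun n a => by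
      have := ac n (true, a, a, a)
      rw [show kd n (true, a, a, a) = 1 by simp [kd]] at this
      simpa using this.one false
  have ext : ∀ x, (∀ r b, x * D.s (r, b) = 0) → x = 0 := fun x h =>
    w3 x (fun i => h i.1 i.2) (by
      have := tendsto_nhds_unique (lim (star x * x))
        (tendsto_const_nhds.congr fun a => by rw [mul_assoc, mul_assoc, h, mul_zero, mul_zero])
      simpa [w1.st.one] using congrArg ω this)
  let h : Bool → Finset Ω → A := fun sd G => hf (D.u (sd, G))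
  have hp : ∀ sd G, IsStarProjection (h sd G) := fun sd G => hf_proj (D.u_sa _) (D.u_sq _)
  have hm : ∀ sd G G', G ⊆ G' → h sd G * h sd G' = h sd G' := fun sd G G' e =>
    hf_mono (ext _ fun r => ac_mono (ac _ r) (ac _ r) (D.u_sq _) (by
      rcases kd_cases sd r with c | ⟨x, y, z, c1, c2, rfl⟩
      · exact .inr (.inl (c _))
      · rw [kd_pos _ _ c1 c2, kd_pos _ _ c1 c2]
        exact ty_mono _ _ _ _ _ _ (by simpa using @e _) (by simpa using @e _) (by simpa using @e _)))
  have hu : ∀ {ρ : A →L[ℂ] ℂ}, St ρ → ∀ {sd G}, ρ (h sd G) = 1 → ρ (D.u (sd, G)) = 1 :=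
    fun {ρ} r {sd G} e => by
      simp only [h, hf, map_smul, map_add, r.one, smul_eq_mul] at e
      linear_combination 2 * e
  have det : ∀ sd {ρ : A →L[ℂ] ℂ}, St ρ → (∀ G, ρ (h sd G) = 1) →
      D.Vac (fun n => if n.1 = sd then 1 else -1) ρ := fun sd ρ r e => by
    refine ⟨r, fun ⟨i, b⟩ => ?_, fun ⟨sd', G⟩ y => ?_⟩
    · have c := ac (sd, {i.2.1, i.2.2.1}) i
      rw [show kd (sd, {i.2.1, i.2.2.1}) i = 1 by
        rcases kd_cases sd i with c | ⟨x, y, z, c1, c2, rfl⟩
        · exact c _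
        · rw [kd_pos _ _ c1 c2]
          by_cases a : z ∈ ({x, y} : Finset Ω) <;> simp [a, ty]] at c
      have := r.mul_left (D.norm_u _) (hu r (e {i.2.1, i.2.2.1})) (D.s (i, b) * star (D.s (i, b)))
      rw [← mul_assoc, c.one b, neg_mul, map_neg] at this
      linear_combination (-1 / 2) * this
    · split_ifs with a
      · obtain rfl : sd' = sd := a
        rw [r.mul_left (D.norm_u _) (hu r (e G)), one_mul]
      · have c : (1 + D.u (sd, ∅)) * (1 + D.u (sd', G)) = 0 := ext _ fun i =>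
          ac_orth (ac _ i) (ac _ i) (by
            by_cases c : sd = i.1
            · exact .inr (if_neg fun c' => a (c'.1.trans c.symm))
            · exact .inl (if_neg fun c' => c c'.1))
        have c1 := congrArg ρ c
        rw [add_mul, one_mul, map_add, r.mul_left (D.norm_u _) (hu r (e ∅)), map_add, r.one,
          map_zero] at c1
        have c2 := r.mul_left (c := -D.u (sd', G)) (by simpa using D.norm_u _)
          (by rw [map_neg]; linear_combination (-1 / 2) * c1) y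
        rw [neg_mul, map_neg] at c2
        linear_combination -c2
  have up : ∀ C : Finset Ω, ∃ i, ∀ c ∈ C, c < i := fun C =>
    let ⟨i, _, _, h, _⟩ := pick hΩ (G := fun _ => ∅) (F := fun _ => ∅) (R := ∅) (R' := ∅)
      Set.not_countable_univ (by simp) (by simp) C
    ⟨i, h⟩
  choose nx hnx using up
  have n1 : ∀ x, x < nx {x} := fun x => hnx _ _ (Finset.mem_singleton_self x)
  obtain ⟨φ, p1, p2⟩ := exists_lim (l := atTop) w1.st fun G : Finset Ω =>
    D.iso ((true, nx G, nx {nx G}, nx {nx {nx G}}), false)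
  have p3 : ∀ G, φ (h true G) = 1 := fun G => p2 _ _ (by
    filter_upwards [eventually_ge_atTop G] with G' e
    have c := ac (true, G) (true, nx G', nx {nx G'}, nx {nx {nx G'}})
    rw [kd_pos _ _ (n1 _) (n1 _), decide_eq_false fun a => (hnx _ _ (e a)).false,
      decide_eq_false fun a => ((hnx _ _ (e a)).trans (n1 _)).false,
      decide_eq_false fun a => (((hnx _ _ (e a)).trans (n1 _)).trans (n1 _)).false] at c
    simp only [h, hf, mul_assoc, smul_mul_assoc, mul_smul_comm, add_mul, mul_add, one_mul,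
      Ac.zero c false, D.iso]
    module)
  let ψ : A →L[ℂ] ℂ := res (β : A →⋆ₙₐ[ℂ] Aᵐᵒᵖ)
    (φ.comp (MulOpposite.opContinuousLinearEquiv ℂ).symm.toContinuousLinearMap)
  have q0 : ∀ a, ψ a = φ (β a).unop := fun a => rfl
  have q1 : St ψ := .of_pos (fun a => by
    simpa [q0, map_star] using p1.pos (star (β a).unop)) (by simp [q0, p1.one])
  have q3 : ∀ G, ψ (h false G) = 1 := fun G => by
    simpa [q0, h, hf, b2] using p3 G
  have key : ∀ sd {ρ : A →L[ℂ] ℂ}, St ρ → (∀ G, ρ (h sd G) = 1) →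
      ∀ {B : Type u} [NonUnitalCStarAlgebra B] {ι : A →⋆ₙₐ[ℂ] B} {χ : B →L[ℂ] ℂ},
      IsUniqueStateExtension ι ρ χ → ∀ σ : B →L[ℂ] ℂ, ‖σ‖ ≤ 1 → (∀ b, 0 ≤ σ (star b * b)) →
      (∀ G, σ (ι (h sd G)) = 1) → σ = χ := fun sd ρ r1 r2 B _ ι χ e σ s1 s2 s3 => by
    have n := (res_norm ι σ).trans s1
    have a : res ι σ = ρ := (det sd (.of_isState ⟨res_pos ι s2,
      norm_eq_one_of_apply n (hp sd ∅).norm_le (s3 ∅)⟩) s3).ext (det sd r1 r2)
    have a' := fun x => DFunLike.congr_fun a x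
    exact e.2.2 σ (isState_of_ext r1.isState s2 s1 a') a'
  refine ⟨A, inferInstance, simple w2 lim, φ, ψ,
    pure_of_det (fun G => (hp true G).norm_le) p1 p3 fun σ s1 s2 =>
      (det _ s1 s2).ext (det _ p1 p3),
    pure_of_det (fun G => (hp false G).norm_le) q1 q3 fun σ s1 s2 =>
      (det _ s1 s2).ext (det _ q1 q3),
    ⟨β, fun a => ⟨by rw [q0, b1], q0 a⟩⟩, fun B _ ι κ χ e1 e2 => ?_⟩
  refine core hΩ e1.1.2.le (H := fun G => ι (h true G)) (K := fun G => κ (h false G))
    (fun G => (hp _ G).map ι) (fun G => (hp _ G).map κ)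
    (fun G G' e => by rw [← map_mul, hm _ _ _ e]) (fun G G' e => by rw [← map_mul, hm _ _ _ e])
    (fun ρ r1 r2 r3 F => by rw [key _ p1 p3 e1 ρ r1 r2 r3, e2.2.1, q3])
    (fun ρ r1 r2 r3 F => by rw [key _ q1 q3 e2 ρ r1 r2 r3, e1.2.1, p3])
    (fun G₁ G₂ G₃ c1 c2 v => ?_) fun x y z c1 c2 => ?_
  · obtain ⟨w, hw⟩ := hf_chi (D.u_sa (true, G₁)) (D.u_sa (true, G₂)) (D.u_sa (true, G₃))
      (ext _ fun r => ac_chi (ac _ r) (ac _ r) (ac _ r) (by
        rcases kd_cases true r with c | ⟨x, y, z, d1, d2, rfl⟩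
        · exact .inl (.inr (.inl (c _)))
        · have d3 := d1.trans d2
          rw [kd_pos _ _ d1 d2, kd_pos _ _ d1 d2, kd_pos _ _ d1 d2]
          refine (ty_chi _ _ _ _ _ _ _ _ _ ?_ ?_ ?_ ?_ ?_ ?_).imp_right (.imp_right fun a => ⟨rfl, a⟩)
            <;> simp only [decide_eq_true_eq]
          · exact fun a b => by_contra fun c => (c1 _ a _ b c).asymm d1
          · exact fun a b => by_contra fun c => (c1 _ a _ b c).asymm d3
          · exact fun a b => by_contra fun c => (c1 _ a _ b c).asymm d2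
          · refine fun a b => by_contra fun c => ?_
            rcases b with b | b | b
            exacts [(c2 _ a _ b (not_and_or.1 c)).false, (c2 _ a _ b (not_and_or.1 c)).asymm d1,
              (c2 _ a _ b (not_and_or.1 c)).asymm d3]
          · refine fun a b => by_contra fun c => ?_
            rcases b with b | b
            exacts [(c2 _ a _ b (not_and_or.1 c)).false, (c2 _ a _ b (not_and_or.1 c)).asymm d2]
          · exact fun a b => by_contra fun c => (c2 _ a _ b (.inl c)).false))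
    have e : ∀ G, ι (h true G) * (v - ι (h true G₃) * v) = ι (h true G * (1 - h true G₃)) * v :=
      fun G => by rw [mul_sub, mul_sub, mul_one, map_sub, map_mul, sub_mul, mul_assoc]
    have e' : ∀ a b : A, star (ι a * v) * (ι b * v) = star v * ι (star a * b) * v := fun a b => by
      simp [mul_assoc, map_star]
    rw [ori, e, e, e', e', ← sub_mul, ← mul_sub, ← map_sub, ← smul_eq_mul, ← map_smul,
      ← smul_mul_assoc, ← mul_smul_comm, ← map_smul]
    erw [hw]
    rw [map_smul, mul_smul_comm, smul_mul_assoc, map_smul, ← e', smul_eq_mul, re_ofReal_mul]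
    exact mul_nonneg (by norm_num) (e1.1.1 _).1
  · have a1 : ∀ F, h false F * D.s ((false, x, y, z), true) = (1 / 2 : ℂ) •
        (D.s ((false, x, y, z), true) + ph false (kd (false, F) (false, x, y, z)) true •
          D.s ((false, x, y, z), xor (fl (kd (false, F) (false, x, y, z))) true)) := fun F => by
      simp only [h, hf, smul_mul_assoc, add_mul, one_mul, w4]
    have d3 := c1.trans c2
    refine ⟨κ (D.s ((false, x, y, z), true)), (NonUnitalStarAlgHom.norm_apply_le κ _).trans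
      (CuntzData.norm_le_one_of_iso (D.iso _)), ?_, fun F f1 f2 f3 => ?_, fun F f1 f2 f3 => ?_, ?_⟩
    · rw [← map_mul, a1, kd_pos _ _ c1 c2]
      simp [c2.ne, d3.ne, ty, ph, fl]
    · rw [← map_mul, ← map_mul, a1, a1, kd_pos _ _ c1 c2, kd_pos _ _ c1 c2]
      simp [f1, f2, f3, c1.ne', d3.ne']
    · rw [← map_mul, ← map_mul, a1, a1, kd_pos _ _ c1 c2, kd_pos _ _ c1 c2]
      simp [f1, f2, f3, c1.ne, c2.ne']
    · rw [ori, ← map_mul, ← map_mul, ← map_star, ← map_star, ← map_mul, ← map_mul, ← map_sub,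
        e2.2.1, a1, a1, kd_pos _ _ c1 c2, kd_pos _ _ c1 c2]
      have o1 := D.orth ((false, x, y, z), true) ((false, x, y, z), false) (by simp)
      have o2 := D.orth ((false, x, y, z), false) ((false, x, y, z), true) (by simp)
      simp [c1.ne, c1.ne', c2.ne', d3.ne', ty, ph, fl, mul_add, add_mul, o1, o2, D.iso, q1.one]
      norm_num

end Pool.Agent.P.MP_8219a1_an.H93
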