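import Pool.Agent.P.MP_8219a1_an.H93.YFock

set_option autoImplicit false

open scoped ComplexOrder
open Filter Topology Complex

noncomputable section

namespace Pool.Agent.P.MP_8219a1_an.H93

/-- The local type of a symmetry: identity, minus identity, or one of the three Pauli matrices. -/
def ty : Bool → Bool → Bool → Fin 5
  | false, false, false => 0
  | true, false, false => 2
  | false, true, false => 3
  | false, false, true => 4
  | _, _, _ => 1

/-- Whether the matrix flips the two basis vectors. -/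
def fl (k : Fin 5) : Bool := ![false, false, true, true, false] k

/-- The phases of the matrix. -/
def ph (sd : Bool) (k : Fin 5) (b : Bool) : ℂ :=
  ![1, -1, 1, if b = sd then -I else I, if b then -1 else 1] k

theorem ph_norm (sd : Bool) (k : Fin 5) (b : Bool) : star (ph sd k b) * ph sd k b = 1 := by
  fin_cases k <;> cases sd <;> cases b <;> simp [ph]

theorem ph_flip (sd : Bool) (k : Fin 5) (b : Bool) :
    ph sd k (xor (fl k) b) = star (ph sd k b) := by
  fin_cases k <;> cases sd <;> cases b <;> simp [ph, fl]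

theorem ph_not (sd : Bool) (k : Fin 5) (b : Bool) : ph (!sd) k b = star (ph sd k b) := by
  fin_cases k <;> cases sd <;> cases b <;> simp [ph]

theorem ty_mono : ∀ a b c a' b' c' : Bool, (a → a') → (b → b') → (c → c') →
    ty a b c = 0 ∨ ty a' b' c' = 1 ∨ ty a b c = ty a' b' c' := by decide

set_option synthInstance.maxSize 4000 in
theorem ty_chi : ∀ a₁ b₁ c₁ a₂ b₂ c₂ a₃ b₃ c₃ : Bool,
    (b₁ → a₂ → a₁) → (c₁ → a₂ → a₁) → (c₁ → b₂ → b₁) →
    (a₃ → a₂ ∨ b₂ ∨ c₂ → a₁ ∧ a₂) → (b₃ → b₂ ∨ c₂ → b₁ ∧ b₂) → (c₃ → c₂ → c₁) →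
    (ty a₁ b₁ c₁ = 0 ∨ ty a₁ b₁ c₁ = 1 ∨ ty a₂ b₂ c₂ = 0 ∨ ty a₂ b₂ c₂ = 1 ∨
      ty a₁ b₁ c₁ = ty a₂ b₂ c₂) ∨ ty a₃ b₃ c₃ = 0 ∨
      ty a₁ b₁ c₁ = 2 ∧ ty a₂ b₂ c₂ = 3 ∧ ty a₃ b₃ c₃ = 4 := by decide

section Local

variable {A : Type*} [CStarAlgebra A] {v : Bool → A} {sd : Bool}

/-- `x` acts on the pair `v` by the matrix of type `k`. -/
def Ac (v : Bool → A) (sd : Bool) (k : Fin 5) (x : A) : Prop :=
  ∀ b, x * v b = ph sd k b • v (xor (fl k) b)

theorem Ac.zero {x : A} (h : Ac v sd 0 x) (b : Bool) : x * v b = v b := by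
  simpa [ph, fl] using h b

theorem Ac.one {x : A} (h : Ac v sd 1 x) (b : Bool) : x * v b = -v b := by
  simpa [ph, fl] using h b

theorem ac_mono {x y : A} {k l : Fin 5} (hx : Ac v sd k x) (hy : Ac v sd l y) (h2 : x * x = 1)
    (h : k = 0 ∨ l = 1 ∨ k = l) (b : Bool) : (x * (1 + y) - (1 + y)) * v b = 0 := by
  rcases h with rfl | rfl | rfl
  · simp [sub_mul, add_mul, mul_add, mul_assoc, hy b, hx.zero]
  · simp [sub_mul, add_mul, mul_assoc, hy.one]
  · have : y * v b = x * v b := (hy b).trans (hx b).symm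
    simp only [sub_mul, add_mul, mul_add, mul_assoc, this, ← mul_assoc x x, h2, one_mul, mul_one]
    abel

theorem ac_orth {x y : A} {k l : Fin 5} (hx : Ac v sd k x) (hy : Ac v sd l y)
    (h : k = 1 ∨ l = 1) (b : Bool) : (1 + x) * (1 + y) * v b = 0 := by
  rcases h with rfl | rfl
  · simp [add_mul, mul_add, mul_assoc, hy b, hx.one]
  · simp [add_mul, mul_assoc, hy.one]

theorem ac_chi {x y z : A} {k l m : Fin 5} (hx : Ac v sd k x) (hy : Ac v sd l y)
    (hz : Ac v sd m z)
    (h : (k = 0 ∨ k = 1 ∨ l = 0 ∨ l = 1 ∨ k = l) ∨ m = 0 ∨ sd = true ∧ k = 2 ∧ l = 3 ∧ m = 4)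
    (b : Bool) : ((x * y - y * x) * ((x * y - y * x) * (1 - z)) +
      (2 * I) • ((x * y - y * x) * (1 - z))) * v b = 0 := by
  rw [add_mul, smul_mul_assoc, mul_assoc, mul_assoc]
  rcases h with h | rfl | ⟨rfl, rfl, rfl, rfl⟩
  · have d : ∀ b, (x * y - y * x) * v b = 0 := fun b => by
      rw [sub_mul, mul_assoc, mul_assoc]
      rcases h with rfl | rfl | rfl | rfl | rfl
      · simp [hy b, hx.zero]
      · simp [hy b, hx.one]
      · simp [hx b, hy.zero]
      · simp [hx b, hy.one]
      · rw [hx b, hy b, mul_smul_comm, mul_smul_comm, hx, hy, sub_self]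
    rw [sub_mul 1, one_mul, hz, mul_sub, mul_smul_comm, d, d]
    simp
  · simp [sub_mul (1 : A), hz.zero]
  · have d : (x * y - y * x) * v true = (-2 * I) • v true := by
      rw [sub_mul, mul_assoc, mul_assoc, hx, hy, mul_smul_comm, mul_smul_comm, hx, hy]
      simp only [ph, fl]
      simp
      module
    rw [sub_mul 1, one_mul, hz]
    cases b
    · simp [ph, fl]
    · simp only [ph, fl]
      simp only [Matrix.cons_val, Bool.false_bne, ↓reduceIte, neg_smul, one_smul, sub_neg_eq_add,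
        mul_add, d, mul_smul_comm]
      module

end Local

section Star

variable {A : Type*} [CStarAlgebra A]

/-- The projection attached to a symmetry. -/
def hf (x : A) : A := (1 / 2 : ℂ) • (1 + x)

theorem hf_proj {x : A} (h1 : star x = x) (h2 : x * x = 1) : IsStarProjection (hf x) := by
  refine ⟨?_, ?_⟩
  · simp only [IsIdempotentElem, hf, smul_mul_assoc, mul_smul_comm, add_mul, mul_add, h2, one_mul,
      mul_one]
    module
  · simp [IsSelfAdjoint, hf, h1]

theorem hf_mono {x y : A} (h : x * (1 + y) - (1 + y) = 0) : hf x * hf y = hf y := by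
  simp only [hf, smul_mul_assoc, mul_smul_comm, add_mul, one_mul, sub_eq_zero.1 h]
  module

theorem hf_chi {x y z : A} (hx : star x = x) (hy : star y = y) (hz : star z = z)
    (h : (x * y - y * x) * ((x * y - y * x) * (1 - z)) + (2 * I) • ((x * y - y * x) * (1 - z)) = 0) :
    ∃ w : A, I • (star (hf x * (1 - hf z)) * (hf y * (1 - hf z)) -
      star (hf y * (1 - hf z)) * (hf x * (1 - hf z))) = ((1 / 32 : ℝ) : ℂ) • (star w * w) := by
  refine ⟨(x * y - y * x) * (1 - z), ?_⟩
  have e1 : 1 - hf z = (1 / 2 : ℂ) • (1 - z) := by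
    simp only [hf]
    module
  have e2 : star ((x * y - y * x) * (1 - z)) * ((x * y - y * x) * (1 - z)) =
      (2 * I) • ((1 - z) * ((x * y - y * x) * (1 - z))) := by
    rw [← mul_smul_comm, ← neg_eq_of_add_eq_zero_right h, star_mul, star_sub, star_sub, star_mul,
      star_mul, hx, hy, hz, star_one]
    noncomm_ring
  have e3 : star ((1 + x) * (1 - z)) * ((1 + y) * (1 - z)) -
      star ((1 + y) * (1 - z)) * ((1 + x) * (1 - z)) = (1 - z) * ((x * y - y * x) * (1 - z)) := by
    simp only [star_mul, star_add, star_sub, star_one, hx, hy, hz]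
    noncomm_ring
  rw [e2, ← e3, e1]
  simp only [hf, smul_mul_assoc, mul_smul_comm, star_smul, star_div₀, star_one, star_ofNat]
  push_cast
  module

end Star

end Pool.Agent.P.MP_8219a1_an.H93
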