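import Pool.Agent.P.MP_8219a1_an.H93.Core

set_option autoImplicit false

open scoped ComplexOrder
open Filter Topology

noncomputable section

namespace Pool.Agent.P.MP_8219a1_an.H93

open G

/-- A Cuntz family together with symmetries that permute it up to scalars. -/
structure YData (L N A : Type*) [CStarAlgebra A] where
  s : L → A
  u : N → A
  iso : ∀ i, star (s i) * s i = 1
  orth : ∀ i j, i ≠ j → star (s i) * s j = 0
  u_sa : ∀ n, star (u n) = u n
  u_sq : ∀ n, u n * u n = 1
  u_s : ∀ n i, ∃ (c : ℂ) (j : L), u n * s i = c • s j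
  dense : Dense (StarAlgebra.adjoin ℂ (Set.range s ∪ Set.range u) : Set A)

namespace YData

variable {L N A : Type*} [CStarAlgebra A] (D : YData L N A)

theorem norm_u (n : N) : ‖D.u n‖ ≤ 1 :=
  CuntzData.norm_le_one_of_iso (by rw [D.u_sa, D.u_sq])

/-- The span of the monomials. -/
def V : Submodule ℂ A :=
  Submodule.span ℂ
    {v | ∃ (μ ν : List L) (m : List N), v = word D.s μ * (word D.u m * star (word D.s ν))}

theorem mono_mem (μ ν : List L) (m : List N) :
    word D.s μ * (word D.u m * star (word D.s ν)) ∈ D.V :=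
  Submodule.subset_span ⟨μ, ν, m, rfl⟩

theorem mul_mem {a : A} (h : ∀ μ ν m, a * (word D.s μ * (word D.u m * star (word D.s ν))) ∈ D.V)
    {v : A} (hv : v ∈ D.V) : a * v ∈ D.V := by
  have : D.V ≤ D.V.comap (LinearMap.mulLeft ℂ a) :=
    Submodule.span_le.2 fun _ ⟨μ, ν, m, e⟩ => e ▸ h μ ν m
  exact this hv

theorem star_s_word (m : List N) :
    ∀ i, ∃ (c : ℂ) (j : L), star (D.s i) * word D.u m = c • star (D.s j) := by
  induction m with
  | nil => exact fun i => ⟨1, i, by simp⟩
  | cons n m ih =>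
    intro i
    obtain ⟨c, j, e⟩ := D.u_s n i
    obtain ⟨c', k, e'⟩ := ih j
    refine ⟨star c * c', k, ?_⟩
    rw [word_cons, ← mul_assoc, ← D.u_sa n, ← star_mul, e, star_smul, smul_mul_assoc, e', smul_smul]

theorem dense_V : Dense (D.V : Set A) := by
  have g1 : ∀ i, ∀ v ∈ D.V, D.s i * v ∈ D.V := fun i v => D.mul_mem fun μ ν m => by
    rw [← mul_assoc, ← word_cons]
    exact D.mono_mem _ _ _
  have g2 : ∀ i, ∀ v ∈ D.V, star (D.s i) * v ∈ D.V := fun i v => D.mul_mem fun μ ν m => by
    cases μ with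
    | nil =>
      obtain ⟨c, j, e⟩ := D.star_s_word m i
      rw [word_nil, one_mul, ← mul_assoc, e, smul_mul_assoc]
      exact Submodule.smul_mem _ _ (by simpa [word_append] using D.mono_mem [] (ν ++ [j]) [])
    | cons k μ =>
      rw [word_cons, mul_assoc, ← mul_assoc (star (D.s i))]
      by_cases e : i = k
      · rw [e, D.iso, one_mul]
        exact D.mono_mem _ _ _
      · simp [D.orth i k e]
  have g3 : ∀ n, ∀ v ∈ D.V, D.u n * v ∈ D.V := fun n v => D.mul_mem fun μ ν m => by
    cases μ with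
    | nil => simpa [mul_assoc] using D.mono_mem [] ν (n :: m)
    | cons k μ =>
      obtain ⟨c, j, e⟩ := D.u_s n k
      rw [word_cons, mul_assoc, ← mul_assoc (D.u n), e, smul_mul_assoc]
      exact Submodule.smul_mem _ _ (g1 j _ (D.mono_mem _ _ _))
  refine D.dense.mono fun a ha => ?_
  have key : ∀ v ∈ D.V, a * v ∈ D.V ∧ star a * v ∈ D.V := by
    induction ha using StarAlgebra.adjoin_induction with
    | mem x hx =>
      rcases hx with ⟨i, rfl⟩ | ⟨m, rfl⟩
      · exact fun v hv => ⟨g1 i v hv, g2 i v hv⟩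
      · exact fun v hv => ⟨g3 m v hv, (D.u_sa m).symm ▸ g3 m v hv⟩
    | algebraMap r =>
      intro v hv
      rw [Algebra.algebraMap_eq_smul_one, star_smul, star_one, smul_mul_assoc, smul_mul_assoc,
        one_mul]
      exact ⟨Submodule.smul_mem _ _ hv, Submodule.smul_mem _ _ hv⟩
    | add x y _ _ hx hy =>
      intro v hv
      rw [star_add, add_mul, add_mul]
      exact ⟨add_mem (hx v hv).1 (hy v hv).1, add_mem (hx v hv).2 (hy v hv).2⟩
    | mul x y _ _ hx hy =>
      intro v hv
      rw [star_mul, mul_assoc, mul_assoc]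
      exact ⟨(hx _ (hy v hv).1).1, (hy _ (hx v hv).2).2⟩
    | star x _ hx =>
      intro v hv
      rw [star_star]
      exact ⟨(hx v hv).2, (hx v hv).1⟩
  simpa using (key 1 (by simpa using D.mono_mem [] [] [])).1

/-- States that kill the range projections and have the symmetries as eigenvectors. -/
structure Vac (z : N → ℂ) (ρ : A →L[ℂ] ℂ) : Prop where
  st : St ρ
  vac : ∀ i, ρ (D.s i * star (D.s i)) = 0
  eig : ∀ n y, ρ (D.u n * y) = z n * ρ y

variable {D} {ρ σ : A →L[ℂ] ℂ} {z : N → ℂ}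

theorem Vac.left (h : D.Vac z ρ) (i : L) (y : A) : ρ (D.s i * y) = 0 := by
  simpa using (cs_zero ρ h.st.pos (star (D.s i)) (by simpa using h.vac i) y).2

theorem Vac.right (h : D.Vac z ρ) (i : L) (y : A) : ρ (y * star (D.s i)) = 0 := by
  simpa using (cs_zero ρ h.st.pos (star (D.s i)) (by simpa using h.vac i) (star y)).1

theorem Vac.ext (h : D.Vac z ρ) (h' : D.Vac z σ) : ρ = σ := by
  refine ContinuousLinearMap.ext_on D.dense_V ?_
  rintro _ ⟨_ | ⟨k, μ⟩, _ | ⟨l, ν⟩, m, rfl⟩
  · induction m with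
    | nil => simp [h.st.one, h'.st.one]
    | cons n m ih => simpa [h.eig, h'.eig] using .inl (by simpa using ih)
  · simp only [word_cons, star_mul, ← mul_assoc, h.right, h'.right]
  · simp only [word_cons, mul_assoc, h.left, h'.left]
  · simp only [word_cons, mul_assoc, h.left, h'.left]

variable {J : Type*} {l : Filter J} {t : J → L}

theorem Vac.lim (h : D.Vac z ρ) (ht : Tendsto t l cofinite)
    (e : ∀ n j, D.u n * D.s (t j) = z n • D.s (t j)) (x : A) :
    Tendsto (fun j => star (D.s (t j)) * x * D.s (t j)) l (𝓝 (ρ x • 1)) := by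
  have e' : ∀ m j, word D.u m * D.s (t j) = ρ (word D.u m) • D.s (t j) := fun m j => by
    induction m with
    | nil => simp [h.st.one]
    | cons n m ih => rw [word_cons, mul_assoc, ih, mul_smul_comm, e, h.eig, smul_smul, mul_comm]
  have key : ∀ v ∈ D.V, ∀ᶠ j in l, star (D.s (t j)) * v * D.s (t j) = ρ v • 1 := fun v hv => by
    induction hv using Submodule.span_induction with
    | mem x hx =>
      obtain ⟨_ | ⟨k, μ⟩, ν, m, rfl⟩ := hx
      · rcases ν with _ | ⟨k, ν⟩
        · refine .of_forall fun j => ?_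
          simp [mul_assoc, e', D.iso]
        · filter_upwards [ht (eventually_cofinite_ne k)] with j hj
          simp only [word_cons, star_mul, ← mul_assoc, h.right, zero_smul]
          rw [mul_assoc, D.orth k _ (Ne.symm hj), mul_zero]
      · filter_upwards [ht (eventually_cofinite_ne k)] with j hj
        simp only [word_cons, mul_assoc, h.left, zero_smul]
        rw [← mul_assoc, D.orth _ k hj, zero_mul]
    | zero => simp
    | add x y _ _ hx hy =>
      filter_upwards [hx, hy] with j h1 h2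
      rw [mul_add, add_mul, h1, h2, map_add, add_smul]
    | smul c x _ hx =>
      filter_upwards [hx] with j h1
      rw [mul_smul_comm, smul_mul_assoc, h1, map_smul, smul_eq_mul, mul_smul]
  refine Metric.tendsto_nhds.2 fun ε hε => ?_
  have hc : Continuous fun v => ‖x - v‖ + ‖ρ v • (1 : A) - ρ x • 1‖ := by fun_prop
  obtain ⟨v, v1, v2⟩ := D.dense_V.inter_open_nonempty _ (isOpen_lt hc continuous_const)
    ⟨x, show _ < ε by simpa using hε⟩
  filter_upwards [key v v2] with j hj
  have n := CuntzData.norm_le_one_of_iso (D.iso (t j))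
  have e1 : star (D.s (t j)) * x * D.s (t j) - ρ x • 1 =
      star (D.s (t j)) * (x - v) * D.s (t j) + (ρ v • (1 : A) - ρ x • 1) := by
    rw [mul_sub, sub_mul, hj]
    abel
  rw [dist_eq_norm, e1]
  refine ((norm_add_le _ _).trans (add_le_add_left ?_ _)).trans_lt v1
  exact ((norm_mul_le _ _).trans (mul_le_of_le_one_right (norm_nonneg _) n)).trans
    ((norm_mul_le _ _).trans (mul_le_of_le_one_left (norm_nonneg _) (by rwa [norm_star])))

end YData

variable {A J : Type*} [CStarAlgebra A] {l : Filter J} {w : J → A} {ρ : A →L[ℂ] ℂ}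

theorem simple [l.NeBot] (hf : ∀ x, (∀ a b, ρ (a * x * b) = 0) → x = 0)
    (h : ∀ x, Tendsto (fun j => star (w j) * x * w j) l (𝓝 (ρ x • 1))) :
    IsSimpleCStar A := fun I _ => by
  refine (eq_or_ne I ⊥).imp_right fun h0 => ?_
  obtain ⟨x, hx, hx0⟩ : ∃ x ∈ I, x ≠ 0 := by
    by_contra h1
    push Not at h1
    exact h0 (eq_bot_iff.2 h1)
  obtain ⟨a, b, hab⟩ : ∃ a b, ρ (a * x * b) ≠ 0 := by
    by_contra h1
    push Not at h1
    exact hx0 (hf x h1)
  obtain ⟨j, u, hu⟩ := ((h (a * x * b)).eventually (Units.isOpen.mem_nhds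
    (isUnit_one.smul (Units.mk0 _ hab)))).exists
  refine TwoSidedIdeal.eq_top I ?_
  rw [← u.inv_mul, hu]
  exact I.mul_mem_left _ _ (I.mul_mem_right _ _ (I.mul_mem_left _ _
    (I.mul_mem_right _ _ (I.mul_mem_left _ _ hx))))

theorem exists_lim (hρ : St ρ) [l.NeBot] (hw : ∀ j, star (w j) * w j = 1) :
    ∃ σ, St σ ∧ ∀ x (c : ℂ), (∀ᶠ j in l, star (w j) * x * w j = c • 1) → σ x = c := by
  obtain ⟨σ, r1, r2⟩ := (isCompact_Q A).exists_mapClusterPt (f := l)
    (u := fun j => StrongDual.toWeakDual (compress ρ (w j))) (le_principal_iff.2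
      (mem_map.2 (Eventually.of_forall fun j => ⟨compress_norm_le _ _ hρ.norm_le
        (CuntzData.norm_le_one_of_iso (hw _)), compress_pos _ _ hρ.pos⟩)))
  have key : ∀ x (c : ℂ), (∀ᶠ j in l, star (w j) * x * w j = c • 1) → σ x = c :=
    fun x c h => (isClosed_eq (WeakDual.eval_continuous x) continuous_const).mem_of_mapClusterPt r2
      (h.mono fun j hj => by
        change compress ρ _ x = c
        rw [compress_apply, hj, map_smul, hρ.one, smul_eq_mul, mul_one])
  exact ⟨WeakDual.toStrongDual σ, ⟨r1.2, key 1 1 (.of_forall fun j => by simp [hw]), r1.1⟩, key⟩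

/-- A state that is determined by the value one at contractions is pure. -/
theorem pure_of_det {I : Type*} {c : I → A} (hc : ∀ i, ‖c i‖ ≤ 1) (hρ : St ρ)
    (h1 : ∀ i, ρ (c i) = 1) (hd : ∀ σ, St σ → (∀ i, σ (c i) = 1) → σ = ρ) : IsPureState ρ := by
  let _ := CStarAlgebra.spectralOrder A
  have _ := CStarAlgebra.spectralOrderedRing A
  rw [IsPureState, mem_extremePoints_iff_left]
  refine ⟨hρ.isState, ?_⟩
  rintro τ hτ σ hσ ⟨a, b, ha, hb, hab, h⟩
  exact hd τ (.of_isState hτ) fun i => eq_one_of_convex (norm_apply_le_one hτ.2.le (hc i))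
    (norm_apply_le_one hσ.2.le (hc i)) ha hb hab
    ((congrArg (fun f : A →L[ℂ] ℂ => f (c i)) h).trans (h1 i))

end Pool.Agent.P.MP_8219a1_an.H93
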