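import Pool.Agent.P.MP_8219a1_an.Fock
import Pool.Agent.P.MP_8219a1_an.H93.YData

set_option autoImplicit false

open scoped ComplexOrder InnerProductSpace
open Filter Topology

noncomputable section

namespace Pool.Agent.P.MP_8219a1_an.H93

open G

variable {L N : Type}

/-- Monomial symmetries of the Fock space. -/
theorem exists_sym (π : List L → List L) (c : List L → ℂ) (hπ : ∀ w, π (π w) = w)
    (hc : ∀ w, star (c w) * c w = 1) (hc' : ∀ w, c (π w) = star (c w)) :
    ∃ U : Fock L →L[ℂ] Fock L, star U = U ∧ U * U = 1 ∧ ∀ w, U (dl w) = c w • dl (π w) := by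
  classical
  have hi : Function.Injective π := Function.LeftInverse.injective hπ
  have ho : Orthonormal ℂ fun w => c w • dl (π w) := by
    rw [orthonormal_iff_ite]
    intro v w
    rw [inner_smul_left, inner_smul_right, inner_dl]
    by_cases h : v = w
    · subst h
      simpa using hc v
    · simp [h, hi.ne h]
  have e : ∀ w, ho.orthogonalFamily.linearIsometry.toContinuousLinearMap (dl w) =
      c w • dl (π w) := fun w => by
    change ho.orthogonalFamily.linearIsometry (lp.single 2 w (1 : ℂ)) = _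
    rw [OrthogonalFamily.linearIsometry_apply_single]
    simp
  refine ⟨_, op_ext_dl fun v w => ?_, ext_dl fun w => ?_, e⟩
  · rw [ContinuousLinearMap.star_eq_adjoint, ContinuousLinearMap.adjoint_inner_right, e, e,
      inner_smul_left, inner_smul_right, inner_dl, inner_dl]
    by_cases h : π v = w
    · subst h
      simp [hπ, hc']
    · have h' : v ≠ π w := fun e => h (e ▸ hπ w)
      simp [h, h']
  · rw [mul_apply_eq_comp, e, map_smul, e, hπ, hc', smul_smul, mul_comm, hc, one_smul,
      one_apply_eq_self]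

theorem inner_dl_left (v : List L) (η : Fock L) : ⟪dl v, η⟫_ℂ = η v := by
  classical
  unfold dl
  rw [lp.inner_single_left]
  simp

theorem star_dl (w : List L) : star (dl w) = dl w := by
  classical
  ext v
  rw [lp.star_apply, ← inner_dl_left, inner_dl]
  split_ifs <;> simp

/-- Conjugation by the antilinear map `W ∘ star`. -/
def cj (W x : Fock L →L[ℂ] Fock L) : Fock L →L[ℂ] Fock L where
  toFun ξ := W (star (x (W (star ξ))))
  map_add' := by simp
  map_smul' := by simp
  cont := by fun_prop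

theorem cj_apply (W x : Fock L →L[ℂ] Fock L) (ξ : Fock L) :
    cj W x ξ = W (star (x (W (star ξ)))) := rfl

/-- The transposition followed by a permutation of the basis. -/
theorem exists_anti (θ : List L → List L) (hθ : ∀ w, θ (θ w) = w) :
    ∃ f : (Fock L →L[ℂ] Fock L) →ₗ[ℂ] (Fock L →L[ℂ] Fock L), Continuous f ∧ f 1 = 1 ∧
      (∀ x y, f (x * y) = f y * f x) ∧ (∀ x, f (star x) = star (f x)) ∧ (∀ x, f (f x) = x) ∧
      ∀ x v w, ⟪dl v, f x (dl w)⟫_ℂ = ⟪dl (θ w), x (dl (θ v))⟫_ℂ := by
  obtain ⟨W, w1, w2, w3⟩ := exists_sym θ (fun _ => 1) hθ (by simp) (by simp)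
  simp only [one_smul] at w3
  have n1 : ∀ ξ, ‖W ξ‖ ≤ ‖ξ‖ := fun ξ => (W.le_of_opNorm_le
    (CuntzData.norm_le_one_of_iso (by rw [w1, w2])) ξ).trans_eq (one_mul _)
  have j1 : cj W 1 = 1 := ext_dl fun w => by simp [cj_apply, star_dl, w3, hθ]
  have j2 : ∀ ξ, W (star (W (star ξ))) = ξ := fun ξ => DFunLike.congr_fun j1 ξ
  let f : (Fock L →L[ℂ] Fock L) →ₗ[ℂ] (Fock L →L[ℂ] Fock L) :=
    { toFun := fun x => cj W (star x)
      map_add' := fun x y => ContinuousLinearMap.ext fun ξ => by simp [cj_apply]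
      map_smul' := fun c x => ContinuousLinearMap.ext fun ξ => by simp [cj_apply] }
  have e : ∀ x v w, ⟪dl v, f x (dl w)⟫_ℂ = ⟪dl (θ w), x (dl (θ v))⟫_ℂ := fun x v w => by
    change ⟪dl v, W (star (star x (W (star (dl w)))))⟫_ℂ = _
    rw [star_dl, w3, ← ContinuousLinearMap.adjoint_inner_left, ← ContinuousLinearMap.star_eq_adjoint,
      w1, w3, inner_dl_left, lp.star_apply, ← inner_dl_left, ContinuousLinearMap.star_eq_adjoint,
      ContinuousLinearMap.adjoint_inner_right]
    exact inner_conj_symm _ _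
  refine ⟨f, AddMonoidHomClass.continuous_of_bound f 1 fun x => ?_, ?_, fun x y => ?_,
    fun x => op_ext_dl fun v w => ?_, fun x => op_ext_dl fun v w => ?_, e⟩
  · refine ContinuousLinearMap.opNorm_le_bound _ (by positivity) fun ξ => (n1 _).trans ?_
    rw [norm_star, one_mul, ← norm_star x, ← norm_star ξ]
    exact (ContinuousLinearMap.le_opNorm _ _).trans
      (mul_le_mul_of_nonneg_left (n1 _) (norm_nonneg _))
  · change cj W (star 1) = 1
    rw [star_one, j1]
  · refine ContinuousLinearMap.ext fun ξ => ?_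
    change cj W (star (x * y)) ξ = cj W (star y) (cj W (star x) ξ)
    simp [cj_apply, j2]
  · rw [e, ContinuousLinearMap.star_eq_adjoint, ContinuousLinearMap.star_eq_adjoint,
      ContinuousLinearMap.adjoint_inner_right, ContinuousLinearMap.adjoint_inner_right,
      ← inner_conj_symm (f x _), e, inner_conj_symm]
  · rw [e, e, hθ, hθ]

theorem exists_ydata (π : N → L → L) (c : N → L → ℂ) (hπ : ∀ n i, π n (π n i) = i)
    (hc : ∀ n i, star (c n i) * c n i = 1) (hc' : ∀ n i, c n (π n i) = star (c n i))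
    (θ : L → L) (hθ : ∀ i, θ (θ i) = i) (ϑ : N → N) (h1 : ∀ n i, π (ϑ n) (θ i) = θ (π n i))
    (h2 : ∀ n i, c (ϑ n) (θ i) = star (c n i)) :
    ∃ (A : Type) (_ : CStarAlgebra A) (D : YData L N A) (ω : A →L[ℂ] ℂ),
      D.Vac (fun _ => -1) ω ∧ (∀ x, (∀ a b, ω (a * x * b) = 0) → x = 0) ∧
      (∀ x, (∀ i, x * D.s i = 0) → ω (star x * x) = 0 → x = 0) ∧
      (∀ n i, D.u n * D.s i = c n i • D.s (π n i)) ∧
      ∃ β : A ≃⋆ₐ[ℂ] Aᵐᵒᵖ, (∀ a, (β (β a).unop).unop = a) ∧ ∀ n, (β (D.u n)).unop = D.u (ϑ n) := by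
  classical
  choose U u1 u2 u3 using fun n => exists_sym
    (fun w => List.casesOn w [] fun i w => π n i :: w) (fun w => List.casesOn w (-1) fun i _ => c n i)
    (by rintro (_ | _) <;> simp [hπ]) (by rintro (_ | ⟨i, _⟩); exacts [by simp, hc n i])
    (by rintro (_ | ⟨i, _⟩); exacts [by simp, hc' n i])
  have u4 : ∀ n, U n (dl []) = -dl [] := fun n => (u3 n []).trans (neg_one_smul _ _)
  have u5 : ∀ n i w, U n (dl (i :: w)) = c n i • dl (π n i :: w) := fun n i w => u3 n (i :: w)
  have hm : ∀ w, List.map θ (List.map θ w) = w := fun w => by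
    rw [List.map_map, show θ ∘ θ = id from funext hθ, List.map_id]
  have hi : ∀ v w, List.map θ v = List.map θ w ↔ v = w := fun v w =>
    (Function.LeftInverse.injective hm).eq_iff
  obtain ⟨f, f1, f2, f3, f4, f5, f6⟩ := exists_anti (List.map θ) hm
  have f7 : ∀ i, f (cr i) = star (cr (θ i)) := fun i => op_ext_dl fun v w => by
    rw [f6, cr_dl, ContinuousLinearMap.star_eq_adjoint, ContinuousLinearMap.adjoint_inner_right,
      cr_dl, inner_dl, inner_dl]
    refine if_congr ?_ rfl rfl
    rw [← hi (θ i :: v), List.map_cons, hθ, eq_comm]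
  have f8 : ∀ n, f (U n) = U (ϑ n) := fun n => op_ext_dl fun v w => by
    rw [f6, ← u1 n, ContinuousLinearMap.star_eq_adjoint, ContinuousLinearMap.adjoint_inner_right]
    rcases w with _ | ⟨i, w⟩
    · simp [u4, inner_dl, eq_comm]
    · obtain ⟨j, rfl⟩ : ∃ j, i = θ j := ⟨θ i, (hθ i).symm⟩
      rw [List.map_cons, hθ, u5, u5, h1, h2, inner_smul_left, inner_smul_right, inner_dl, inner_dl]
      refine congrArg₂ _ rfl (if_congr ?_ rfl rfl)
      rw [← hi v, List.map_cons, hθ, eq_comm]
  let s := StarAlgebra.adjoin ℂ (Set.range (cr (κ := L)) ∪ Set.range U)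
  let C := s.topologicalClosure
  have := s.isClosed_topologicalClosure
  let _ := CStarAlgebra.spectralOrder C
  have _ := CStarAlgebra.spectralOrderedRing C
  have m1 : ∀ i, cr i ∈ s := fun i => StarAlgebra.subset_adjoin _ _ (.inl ⟨i, rfl⟩)
  have m2 : ∀ n, U n ∈ s := fun n => StarAlgebra.subset_adjoin _ _ (.inr ⟨n, rfl⟩)
  have fs : ∀ x ∈ C, f x ∈ C := fun x hx => show f x ∈ closure (s : Set (Fock L →L[ℂ] Fock L)) from
      map_mem_closure f1 hx fun y hy => by
    induction hy using StarAlgebra.adjoin_induction with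
    | mem x hx =>
      rcases hx with ⟨i, rfl⟩ | ⟨n, rfl⟩
      · exact f7 i ▸ star_mem (m1 _)
      · exact f8 n ▸ m2 _
    | algebraMap r =>
      rw [Algebra.algebraMap_eq_smul_one, map_smul, f2]
      exact SMulMemClass.smul_mem _ (one_mem s)
    | add x y _ _ hx hy => exact map_add f x y ▸ add_mem hx hy
    | mul x y _ _ hx hy => exact f3 x y ▸ mul_mem hy hx
    | star x _ hx => exact f4 x ▸ star_mem hx
  let g : L → C := fun i => ⟨cr i, s.le_topologicalClosure (m1 i)⟩
  let e : N → C := fun n => ⟨U n, s.le_topologicalClosure (m2 n)⟩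
  have es : ∀ n i, e n * g i = c n i • g (π n i) := fun n i =>
    Subtype.ext (ext_dl fun w => by
      change U n (cr i (dl w)) = c n i • cr (π n i) (dl w)
      rw [cr_dl, cr_dl, u5])
  have hw : ∀ μ, ((word g μ : C) : Fock L →L[ℂ] Fock L) (dl []) = dl μ := fun μ => by
    induction μ with
    | nil => rfl
    | cons i μ ih => exact (congrArg (cr i) ih).trans (cr_dl i μ)
  let ω : C →L[ℂ] ℂ := (innerSL ℂ (dl [])).comp
    (((ContinuousLinearMap.apply ℂ (Fock L)) (dl [])).comp C.toSubalgebra.toSubmodule.subtypeL)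
  have hv : ∀ a b : C, ω (star a * b) =
      ⟪(a : Fock L →L[ℂ] Fock L) (dl []), (b : Fock L →L[ℂ] Fock L) (dl [])⟫_ℂ := fun a b =>
    ContinuousLinearMap.adjoint_inner_right (a : Fock L →L[ℂ] Fock L) (dl [])
      ((b : Fock L →L[ℂ] Fock L) (dl []))
  have hs : St ω := .of_pos (fun a => by
    rw [hv, inner_self_eq_norm_sq_to_K]
    have h2 := Complex.zero_le_real.mpr (sq_nonneg ‖(a : Fock L →L[ℂ] Fock L) (dl [])‖)
    rwa [Complex.ofReal_pow] at h2) (by simpa [norm_dl] using hv 1 1)
  refine ⟨C, inferInstance, ⟨g, e, fun i => Subtype.ext (cr_iso i),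
    fun i j h => Subtype.ext (cr_orth i j h), fun n => Subtype.ext (u1 n),
    fun n => Subtype.ext (u2 n), fun n i => ⟨_, _, es n i⟩, ?_⟩, ω, ⟨hs, fun i => ?_, fun n y => ?_⟩,
    fun x hx => ?_, fun x x1 x2 => Subtype.ext (ext_dl ?_), es,
    { toFun := fun a => .op ⟨f a, fs _ a.2⟩
      invFun := fun b => ⟨f b.unop, fs _ b.unop.2⟩
      left_inv := fun a => Subtype.ext (f5 _)
      right_inv := fun b => congrArg MulOpposite.op (Subtype.ext (f5 _))
      map_mul' := fun a b => congrArg MulOpposite.op (Subtype.ext (f3 _ _))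
      map_add' := fun a b => congrArg MulOpposite.op (Subtype.ext (map_add f _ _))
      map_star' := fun a => congrArg MulOpposite.op (Subtype.ext (f4 _))
      map_smul' := fun r a => congrArg MulOpposite.op (Subtype.ext (map_smul f _ _)) },
    fun a => Subtype.ext (f5 _), fun n => Subtype.ext (f8 n)⟩
  · refine Subtype.dense_iff.2 (closure_mono ?_)
    change s ≤ StarSubalgebra.map C.subtype (StarAlgebra.adjoin ℂ (Set.range g ∪ Set.range e))
    rw [StarAlgHom.map_adjoin, Set.image_union, ← Set.range_comp, ← Set.range_comp]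
    exact le_rfl
  · have := hv (star (g i)) (star (g i))
    rw [star_star] at this
    exact this.trans ((congrArg₂ _ (star_cr_nil i) rfl).trans (inner_zero_left _))
  · have a1 := hv (e n) y
    have a2 := hv 1 y
    rw [show star (e n) = e n from Subtype.ext (u1 n)] at a1
    rw [star_one, one_mul] at a2
    refine a1.trans ?_
    rw [a2]
    change ⟪U n (dl []), _⟫_ℂ = -1 * ⟪dl [], _⟫_ℂ
    rw [u4, inner_neg_left, neg_one_mul]
  · refine Subtype.ext (op_ext_dl fun v w => ?_)
    have := hx (star (word g v)) (word g w)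
    rw [mul_assoc, hv, hw] at this
    rw [← hw w]
    exact this.trans (inner_zero_right _).symm
  · rintro (_ | ⟨i, w⟩)
    · exact inner_self_eq_zero.1 ((hv x x).symm.trans x2)
    · rw [← cr_dl]
      exact congrArg (fun a : C => (a : Fock L →L[ℂ] Fock L) (dl w)) (x1 i)

end Pool.Agent.P.MP_8219a1_an.H93
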